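import Pool.Agent.TH572.Saw4846

/-!
# Partial sums of the Dirichlet series of `ζ` with finitely many modified Euler factors
-/

set_option autoImplicit false

namespace Pool.Agent.X108.TU

open Filter Topology Finset Complex MeasureTheory

/-- the partial sums -/
noncomputable def PS (a : ℕ → ℂ) (x : ℝ) (s : ℂ) : ℂ := ∑ n ∈ Icc 1 ⌊x⌋₊, a n * (n : ℂ) ^ (-s)

/-- the main term -/
noncomputable def MT (α β : ℂ) (x : ℝ) (s : ℂ) : ℂ := α - β * ((x : ℂ) ^ (1 - s) / (s - 1))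

/-- a neighbourhood of `1 + i` in the half plane `Re s ≥ 1` -/
structure Dom (s : ℂ) : Prop where
  re1 : 1 ≤ s.re
  re2 : s.re ≤ 5 / 4
  im1 : 1 / 2 ≤ s.im
  im2 : s.im ≤ 2

lemma Dom.sub_one {s : ℂ} (hs : Dom s) : 1 / 2 ≤ ‖s - 1‖ := by
  have h := Complex.abs_im_le_norm (s - 1)
  rw [Complex.sub_im, Complex.one_im, sub_zero] at h
  exact hs.im1.trans ((le_abs_self _).trans h)

lemma Dom.ne_one {s : ℂ} (hs : Dom s) : s ≠ 1 := by
  intro h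
  have h1 := hs.im1
  rw [h, Complex.one_im] at h1
  linarith

lemma Dom.norm_le {s : ℂ} (hs : Dom s) : ‖s‖ ≤ 13 / 4 := by
  have h := Complex.norm_le_abs_re_add_abs_im s
  rw [abs_of_nonneg (by linarith [hs.re1]), abs_of_nonneg (by linarith [hs.im1])] at h
  linarith [hs.re2, hs.im2]

lemma cpow_div_le {s : ℂ} (hs : Dom s) {x : ℝ} (hx : 0 < x) :
    ‖(x : ℂ) ^ (1 - s) / (s - 1)‖ ≤ 2 * x ^ (1 - s.re) := by
  rw [norm_div, Complex.norm_cpow_eq_rpow_re_of_pos hx, Complex.sub_re, Complex.one_re,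
    div_le_iff₀ (by linarith [hs.sub_one])]
  have h1 := hs.sub_one
  have h2 : 0 ≤ x ^ (1 - s.re) := by positivity
  nlinarith

lemma em_le {s : ℂ} (hs : Dom s) {c : ℝ} (hc : 0 < c) :
    ‖PS (fun _ => 1) c s - MT (riemannZeta s) 1 c s‖ ≤ 3 * c ^ (-s.re) := by
  have hs0 : 0 < s.re := by linarith [hs.re1]
  have h := Pool.Agent.TH572.Saw.em hs0 hs.ne_one hc
  have hI : IntegrableOn (fun u : ℝ => (1 / 2 : ℝ) * u ^ (-s.re - 1)) (Set.Ioi c) :=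
    (integrableOn_Ioi_rpow_of_lt (by linarith) hc).const_mul _
  have hfr : ∀ u : ℝ, |Int.fract u - 1 / 2| ≤ 1 / 2 := by
    intro u
    rw [abs_le]
    constructor <;> linarith [Int.fract_nonneg u, (Int.fract_lt_one u).le]
  have hint : ‖∫ u in Set.Ioi c, ((Int.fract u - 1 / 2 : ℝ) : ℂ) * (u : ℂ) ^ (-s - 1)‖ ≤
      1 / 2 * (c ^ (-s.re) / s.re) := by
    have hval : ∫ u in Set.Ioi c, (1 / 2 : ℝ) * u ^ (-s.re - 1) = 1 / 2 * (c ^ (-s.re) / s.re) := by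
      rw [integral_const_mul, integral_Ioi_rpow_of_lt (by linarith) hc]
      have e : -s.re - 1 + 1 = -s.re := by ring
      rw [e, neg_div_neg_eq]
    rw [← hval]
    refine norm_integral_le_of_norm_le hI ?_
    refine (ae_restrict_iff' measurableSet_Ioi).2 (Filter.Eventually.of_forall ?_)
    intro u hu
    have hu0 : (0 : ℝ) < u := lt_trans hc hu
    rw [norm_mul, Complex.norm_cpow_eq_rpow_re_of_pos hu0, Complex.norm_real, Real.norm_eq_abs]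
    have h5 : (-s - 1).re = -s.re - 1 := by simp
    rw [h5]
    exact mul_le_mul_of_nonneg_right (hfr u) (Real.rpow_nonneg hu0.le _)
  have hcp : 0 ≤ c ^ (-s.re) := by positivity
  have e1 : PS (fun _ => 1) c s - MT (riemannZeta s) 1 c s =
      s * (∫ u in Set.Ioi c, ((Int.fract u - 1 / 2 : ℝ) : ℂ) * (u : ℂ) ^ (-s - 1)) -
        ((Int.fract c - 1 / 2 : ℝ) : ℂ) * (c : ℂ) ^ (-s) := by
    have e2 : (c : ℂ) ^ (1 - s) / (1 - s) = - ((c : ℂ) ^ (1 - s) / (s - 1)) := by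
      rw [← neg_sub s 1, div_neg]
    rw [e2] at h
    unfold PS MT
    simp only [one_mul]
    linear_combination h
  rw [e1]
  have h2 : ‖((Int.fract c - 1 / 2 : ℝ) : ℂ) * (c : ℂ) ^ (-s)‖ ≤ 1 / 2 * c ^ (-s.re) := by
    rw [norm_mul, Complex.norm_cpow_eq_rpow_re_of_pos hc, Complex.norm_real, Real.norm_eq_abs, Complex.neg_re]
    exact mul_le_mul_of_nonneg_right (hfr c) hcp
  have h3 : ‖s * ∫ u in Set.Ioi c, ((Int.fract u - 1 / 2 : ℝ) : ℂ) * (u : ℂ) ^ (-s - 1)‖ ≤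
      13 / 4 * (1 / 2 * c ^ (-s.re)) := by
    rw [norm_mul]
    refine mul_le_mul hs.norm_le (hint.trans ?_) (norm_nonneg _) (by norm_num)
    have : c ^ (-s.re) / s.re ≤ c ^ (-s.re) := div_le_self hcp hs.re1
    linarith
  refine (norm_sub_le _ _).trans ?_
  linarith

lemma PS_small (a : ℕ → ℂ) {x : ℝ} (hx : x < 1) (s : ℂ) : PS a x s = 0 := by
  unfold PS
  have : ⌊x⌋₊ = 0 := Nat.floor_eq_zero.2 hx
  rw [this]
  simp

lemma rpow_facts {σ x : ℝ} (h1 : 1 ≤ σ) (h2 : σ ≤ 5 / 4) (hx : 0 < x) :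
    (1 ≤ x → x ^ (-σ) ≤ x ^ (-(1 / 2) : ℝ)) ∧ (x < 1 → x ^ (1 - σ) ≤ x ^ (-(1 / 2) : ℝ)) ∧
      (x < 1 → 1 ≤ x ^ (-(1 / 2) : ℝ)) := by
  refine ⟨fun h => ?_, fun h => ?_, fun h => ?_⟩
  · exact Real.rpow_le_rpow_of_exponent_le h (by linarith)
  · exact Real.rpow_le_rpow_of_exponent_ge hx h.le (by linarith)
  · exact Real.one_le_rpow_of_pos_of_le_one_of_nonpos hx h.le (by norm_num)

lemma zeta_le {s : ℂ} (hs : Dom s) : ‖riemannZeta s‖ ≤ 6 := by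
  have h := em_le hs one_pos
  have e1 : PS (fun _ => 1) 1 s = 1 := by
    unfold PS
    simp
  have h2 := cpow_div_le hs one_pos
  rw [Real.one_rpow] at h h2
  rw [e1] at h
  unfold MT at h
  have e2 : riemannZeta s = (1 : ℂ) + 1 * (((1 : ℝ) : ℂ) ^ (1 - s) / (s - 1)) -
      (1 - (riemannZeta s - 1 * (((1 : ℝ) : ℂ) ^ (1 - s) / (s - 1)))) := by ring
  rw [e2]
  refine (norm_sub_le _ _).trans ?_
  have h3 := norm_add_le (1 : ℂ) (1 * (((1 : ℝ) : ℂ) ^ (1 - s) / (s - 1)))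
  rw [one_mul, norm_one] at h3
  rw [one_mul] at h ⊢
  linarith

lemma base {s : ℂ} (hs : Dom s) {x : ℝ} (hx : 0 < x) :
    ‖PS (fun _ => 1) x s - MT (riemannZeta s) 1 x s‖ ≤ 8 * x ^ (-(1 / 2) : ℝ) := by
  obtain ⟨f1, f2, f3⟩ := rpow_facts hs.re1 hs.re2 hx
  have h0 : 0 ≤ x ^ (-(1 / 2) : ℝ) := by positivity
  rcases lt_or_ge x 1 with h | h
  · rw [PS_small _ h]
    unfold MT
    rw [zero_sub, norm_neg, one_mul]
    refine (norm_sub_le _ _).trans ?_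
    have := zeta_le hs
    have := cpow_div_le hs hx
    have := f2 h
    have := f3 h
    linarith
  · have := em_le hs hx
    have := f1 h
    linarith

lemma mult_sum {p : ℕ} (hp : 0 < p) (x : ℝ) (F : ℕ → ℂ) :
    ∑ n ∈ (Icc 1 ⌊x⌋₊).filter (fun n => p ∣ n), F n = ∑ m ∈ Icc 1 ⌊x / p⌋₊, F (p * m) := by
  have : (Icc 1 ⌊x⌋₊).filter (fun n => p ∣ n) = (Icc 1 ⌊x / p⌋₊).image (fun m => p * m) := by
    ext n
    simp only [Finset.mem_filter, Finset.mem_image, Finset.mem_Icc]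
    rw [Nat.floor_div_natCast]
    constructor
    · rintro ⟨⟨h1, h2⟩, m, rfl⟩
      refine ⟨m, ⟨Nat.pos_of_ne_zero (by rintro rfl; simp at h1), ?_⟩, rfl⟩
      rw [Nat.le_div_iff_mul_le hp, mul_comm]
      exact h2
    · rintro ⟨m, ⟨h1, h2⟩, rfl⟩
      rw [Nat.le_div_iff_mul_le hp, mul_comm] at h2
      exact ⟨⟨Nat.mul_pos hp h1, h2⟩, dvd_mul_right _ _⟩
  rw [this, Finset.sum_image]
  intro m _ n _ h
  exact Nat.eq_of_mul_eq_mul_left hp h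

lemma rec {a b : ℕ → ℂ} {p : ℕ} (hp : 0 < p) {z : ℂ} (ha : ∀ n, a (p * n) = a n)
    (hb1 : ∀ n, ¬ p ∣ n → b n = a n) (hb2 : ∀ n, n ≠ 0 → b (p * n) = z * b n) (x : ℝ) (s : ℂ) :
    PS b x s = PS a x s - (p : ℂ) ^ (-s) * PS a (x / p) s + z * (p : ℂ) ^ (-s) * PS b (x / p) s := by
  have h1 : PS b x s = ∑ n ∈ (Icc 1 ⌊x⌋₊).filter (fun n => p ∣ n), b n * (n : ℂ) ^ (-s) +
      ∑ n ∈ (Icc 1 ⌊x⌋₊).filter (fun n => ¬ p ∣ n), b n * (n : ℂ) ^ (-s) :=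
    (Finset.sum_filter_add_sum_filter_not _ _ _).symm
  have h2 : PS a x s = ∑ n ∈ (Icc 1 ⌊x⌋₊).filter (fun n => p ∣ n), a n * (n : ℂ) ^ (-s) +
      ∑ n ∈ (Icc 1 ⌊x⌋₊).filter (fun n => ¬ p ∣ n), a n * (n : ℂ) ^ (-s) :=
    (Finset.sum_filter_add_sum_filter_not _ _ _).symm
  have h3 : ∑ n ∈ (Icc 1 ⌊x⌋₊).filter (fun n => ¬ p ∣ n), b n * (n : ℂ) ^ (-s) =
      ∑ n ∈ (Icc 1 ⌊x⌋₊).filter (fun n => ¬ p ∣ n), a n * (n : ℂ) ^ (-s) := by
    refine Finset.sum_congr rfl fun n hn => ?_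
    rw [Finset.mem_filter] at hn
    rw [hb1 n hn.2]
  rw [mult_sum hp] at h1 h2
  have h4 : ∑ m ∈ Icc 1 ⌊x / p⌋₊, b (p * m) * ((p * m : ℕ) : ℂ) ^ (-s) =
      z * (p : ℂ) ^ (-s) * PS b (x / p) s := by
    unfold PS
    rw [Finset.mul_sum]
    refine Finset.sum_congr rfl fun m hm => ?_
    rw [Finset.mem_Icc] at hm
    rw [hb2 m (by omega), Nat.cast_mul, Complex.natCast_mul_natCast_cpow]
    ring
  have h5 : ∑ m ∈ Icc 1 ⌊x / p⌋₊, a (p * m) * ((p * m : ℕ) : ℂ) ^ (-s) =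
      (p : ℂ) ^ (-s) * PS a (x / p) s := by
    unfold PS
    rw [Finset.mul_sum]
    refine Finset.sum_congr rfl fun m hm => ?_
    rw [ha m, Nat.cast_mul, Complex.natCast_mul_natCast_cpow]
    ring
  rw [h4, h3] at h1
  rw [h5] at h2
  rw [h1, h2]
  ring

lemma fac {p : ℕ} (hp : 2 ≤ p) {z : ℂ} (hz : ‖z‖ ≤ 1) {s : ℂ} (hs : 1 ≤ s.re) :
    1 - z * (p : ℂ) ^ (-s) ≠ 0 ∧ ‖(1 - (p : ℂ) ^ (-s)) / (1 - z * (p : ℂ) ^ (-s))‖ ≤ 3 := by
  have hp0 : (0 : ℝ) < p := by positivity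
  have hp2 : (2 : ℝ) ≤ p := by exact_mod_cast hp
  have hn : ‖(p : ℂ) ^ (-s)‖ ≤ 1 / 2 := by
    rw [Complex.norm_natCast_cpow_of_pos (by omega), Complex.neg_re]
    calc (p : ℝ) ^ (-s.re) ≤ (p : ℝ) ^ (-1 : ℝ) :=
          Real.rpow_le_rpow_of_exponent_le (by linarith) (by linarith)
      _ = 1 / p := by rw [Real.rpow_neg_one, one_div]
      _ ≤ 1 / 2 := one_div_le_one_div_of_le (by norm_num) hp2
  have h1 : 1 / 2 ≤ ‖1 - z * (p : ℂ) ^ (-s)‖ := by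
    have := norm_sub_norm_le (1 : ℂ) (z * (p : ℂ) ^ (-s))
    rw [norm_mul, norm_one] at this
    have h2 : ‖z‖ * ‖(p : ℂ) ^ (-s)‖ ≤ 1 * (1 / 2) := mul_le_mul hz hn (norm_nonneg _) (by norm_num)
    linarith
  refine ⟨fun h => ?_, ?_⟩
  · rw [h, norm_zero] at h1
    linarith
  · rw [norm_div, div_le_iff₀ (by linarith)]
    have := norm_sub_le (1 : ℂ) ((p : ℂ) ^ (-s))
    rw [norm_one] at this
    linarith

theorem step {a b : ℕ → ℂ} {p : ℕ} (hp : 2 ≤ p) {z : ℂ} (hz : ‖z‖ ≤ 1) (ha : ∀ n, a (p * n) = a n)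
    (hb1 : ∀ n, ¬ p ∣ n → b n = a n) (hb2 : ∀ n, n ≠ 0 → b (p * n) = z * b n) {s α β : ℂ} {K M : ℝ}
    (hs : Dom s) (hK : 0 ≤ K) (hα : ‖α‖ ≤ M) (hβ : ‖β‖ ≤ M)
    (h : ∀ x : ℝ, 0 < x → ‖PS a x s - MT α β x s‖ ≤ K * x ^ (-(1 / 2) : ℝ)) :
    ‖α * ((1 - (p : ℂ) ^ (-s)) / (1 - z * (p : ℂ) ^ (-s)))‖ ≤ 3 * M ∧
    ‖β * ((1 - (p : ℂ)⁻¹) / (1 - z * (p : ℂ)⁻¹))‖ ≤ 3 * M ∧
    ∀ x : ℝ, 0 < x → ‖PS b x s - MT (α * ((1 - (p : ℂ) ^ (-s)) / (1 - z * (p : ℂ) ^ (-s))))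
      (β * ((1 - (p : ℂ)⁻¹) / (1 - z * (p : ℂ)⁻¹))) x s‖ ≤ (7 * K + 9 * M) * x ^ (-(1 / 2) : ℝ) := by
  have hp0 : (0 : ℝ) < p := by positivity
  have hp2 : (2 : ℝ) ≤ p := by exact_mod_cast hp
  have hpc : (p : ℂ) ≠ 0 := by exact_mod_cast hp0.ne'
  have hM : 0 ≤ M := (norm_nonneg _).trans hα
  obtain ⟨f1, f2⟩ := fac hp hz hs.re1
  have g := fac hp hz (s := 1) (by simp)
  rw [Complex.cpow_neg_one] at g
  obtain ⟨g1, g2⟩ := g
  have e3 : ‖α * ((1 - (p : ℂ) ^ (-s)) / (1 - z * (p : ℂ) ^ (-s)))‖ ≤ 3 * M := by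
    rw [norm_mul, mul_comm]
    exact mul_le_mul f2 hα (norm_nonneg _) (by norm_num)
  have e4 : ‖β * ((1 - (p : ℂ)⁻¹) / (1 - z * (p : ℂ)⁻¹))‖ ≤ 3 * M := by
    rw [norm_mul, mul_comm]
    exact mul_le_mul g2 hβ (norm_nonneg _) (by norm_num)
  refine ⟨e3, e4, ?_⟩
  obtain ⟨α', hα'⟩ : ∃ α' : ℂ, α' = α * ((1 - (p : ℂ) ^ (-s)) / (1 - z * (p : ℂ) ^ (-s))) := ⟨_, rfl⟩
  obtain ⟨β', hβ'⟩ : ∃ β' : ℂ, β' = β * ((1 - (p : ℂ)⁻¹) / (1 - z * (p : ℂ)⁻¹)) := ⟨_, rfl⟩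
  rw [← hα'] at e3 ⊢
  rw [← hβ'] at e4 ⊢
  have m1 : α' = α - (p : ℂ) ^ (-s) * α + z * (p : ℂ) ^ (-s) * α' := by
    have : α' * (1 - z * (p : ℂ) ^ (-s)) = α * (1 - (p : ℂ) ^ (-s)) := by
      rw [hα', mul_assoc, div_mul_cancel₀ _ f1]
    linear_combination this
  have m2 : β' = β - (p : ℂ)⁻¹ * β + z * (p : ℂ)⁻¹ * β' := by
    have : β' * (1 - z * (p : ℂ)⁻¹) = β * (1 - (p : ℂ)⁻¹) := by
      rw [hβ', mul_assoc, div_mul_cancel₀ _ g1]
    linear_combination this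
  -- main term recursion
  have mrec : ∀ x : ℝ, 0 < x → MT α' β' x s = MT α β x s - (p : ℂ) ^ (-s) * MT α β (x / p) s +
      z * (p : ℂ) ^ (-s) * MT α' β' (x / p) s := by
    intro x hx
    have hP : (p : ℂ) ^ (1 - s) ≠ 0 := by
      rw [Complex.cpow_def_of_ne_zero hpc]
      exact Complex.exp_ne_zero _
    have q1 : (p : ℂ) ^ (-s) = (p : ℂ) ^ (1 - s) * (p : ℂ)⁻¹ := by
      rw [show -s = (1 - s) - 1 by ring, Complex.cpow_sub _ _ hpc, Complex.cpow_one, div_eq_mul_inv]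
    have q2 : ((x / p : ℝ) : ℂ) ^ (1 - s) = (x : ℂ) ^ (1 - s) / (p : ℂ) ^ (1 - s) := by
      rw [eq_div_iff hP]
      have := Complex.mul_cpow_ofReal_nonneg (a := x / p) (b := (p : ℝ)) (by positivity) hp0.le (1 - s)
      rw [show ((p : ℝ) : ℂ) = (p : ℂ) by norm_cast] at this
      rw [← this]
      congr 1
      push_cast
      field_simp
    unfold MT
    rw [q2]
    have q3 : (p : ℂ) ^ (-s) * (β * ((x : ℂ) ^ (1 - s) / (p : ℂ) ^ (1 - s) / (s - 1))) =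
        (p : ℂ)⁻¹ * β * ((x : ℂ) ^ (1 - s) / (s - 1)) := by
      rw [q1]; field_simp
    have q4 : z * (p : ℂ) ^ (-s) * (β' * ((x : ℂ) ^ (1 - s) / (p : ℂ) ^ (1 - s) / (s - 1))) =
        z * (p : ℂ)⁻¹ * β' * ((x : ℂ) ^ (1 - s) / (s - 1)) := by
      rw [q1]; field_simp
    rw [mul_sub, mul_sub, q3, q4]
    linear_combination m1 - ((x : ℂ) ^ (1 - s) / (s - 1)) * m2
  have hsmall : ∀ x : ℝ, 0 < x → x < 1 →
      ‖PS b x s - MT α' β' x s‖ ≤ (7 * K + 9 * M) * x ^ (-(1 / 2) : ℝ) := by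
    intro x hx hx1
    obtain ⟨_, t2, t3⟩ := rpow_facts hs.re1 hs.re2 hx
    rw [PS_small _ hx1, zero_sub, norm_neg]
    unfold MT
    have h1 := norm_sub_le α' (β' * ((x : ℂ) ^ (1 - s) / (s - 1)))
    have h2 : ‖β' * ((x : ℂ) ^ (1 - s) / (s - 1))‖ ≤ 3 * M * (2 * x ^ (1 - s.re)) := by
      rw [norm_mul]
      exact mul_le_mul e4 (cpow_div_le hs hx) (norm_nonneg _) (by positivity)
    have h3 := t2 hx1
    have h4 := t3 hx1
    have h5 : 3 * M * (2 * x ^ (1 - s.re)) ≤ 6 * M * x ^ (-(1 / 2) : ℝ) := by nlinarith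
    have h6 : 3 * M ≤ 3 * M * x ^ (-(1 / 2) : ℝ) := by nlinarith
    have h7 : 0 ≤ K * x ^ (-(1 / 2) : ℝ) := by positivity
    nlinarith
  have hall : ∀ n : ℕ, ∀ x : ℝ, 0 < x → x < (p : ℝ) ^ n →
      ‖PS b x s - MT α' β' x s‖ ≤ (7 * K + 9 * M) * x ^ (-(1 / 2) : ℝ) := by
    intro n
    induction n with
    | zero =>
      intro x hx hx1
      rw [pow_zero] at hx1
      exact hsmall x hx hx1
    | succ n ih =>
      intro x hx hx1
      have hxp : 0 < x / p := by positivity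
      have ih' := ih (x / p) hxp (by rw [div_lt_iff₀ hp0]; rw [pow_succ] at hx1; exact hx1)
      have h1 := h x hx
      have h2 := h (x / p) hxp
      have hR : (x / p) ^ (-(1 / 2) : ℝ) = x ^ (-(1 / 2) : ℝ) * (p : ℝ) ^ (1 / 2 : ℝ) := by
        rw [Real.div_rpow hx.le hp0.le, Real.rpow_neg hp0.le, div_inv_eq_mul]
      have hpn : ‖(p : ℂ) ^ (-s)‖ * (p : ℝ) ^ (1 / 2 : ℝ) ≤ 3 / 4 := by
        rw [Complex.norm_natCast_cpow_of_pos (by omega), Complex.neg_re, ← Real.rpow_add hp0]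
        calc (p : ℝ) ^ (-s.re + 1 / 2) ≤ (p : ℝ) ^ (-(1 / 2) : ℝ) :=
              Real.rpow_le_rpow_of_exponent_le (by linarith) (by linarith [hs.re1])
          _ ≤ (2 : ℝ) ^ (-(1 / 2) : ℝ) := Real.rpow_le_rpow_of_nonpos (by norm_num) hp2 (by norm_num)
          _ ≤ 3 / 4 := by
              rw [Real.rpow_neg (by norm_num), ← Real.sqrt_eq_rpow, inv_le_comm₀ (by positivity) (by norm_num)]
              apply Real.le_sqrt_of_sq_le
              norm_num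
      set y := x ^ (-(1 / 2) : ℝ) with hy
      have hy0 : 0 ≤ y := by positivity
      have e5 : PS b x s - MT α' β' x s = (PS a x s - MT α β x s) -
          (p : ℂ) ^ (-s) * (PS a (x / p) s - MT α β (x / p) s) +
          z * (p : ℂ) ^ (-s) * (PS b (x / p) s - MT α' β' (x / p) s) := by
        rw [rec (by omega) ha hb1 hb2 x s, mrec x hx]
        ring
      rw [e5]
      rw [hR] at h2 ih'
      have n1 : ‖(p : ℂ) ^ (-s) * (PS a (x / p) s - MT α β (x / p) s)‖ ≤ 3 / 4 * (K * y) := by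
        rw [norm_mul]
        calc ‖(p : ℂ) ^ (-s)‖ * ‖PS a (x / p) s - MT α β (x / p) s‖ ≤
              ‖(p : ℂ) ^ (-s)‖ * (K * (y * (p : ℝ) ^ (1 / 2 : ℝ))) :=
              mul_le_mul_of_nonneg_left h2 (norm_nonneg _)
          _ = (‖(p : ℂ) ^ (-s)‖ * (p : ℝ) ^ (1 / 2 : ℝ)) * (K * y) := by ring
          _ ≤ _ := mul_le_mul_of_nonneg_right hpn (by positivity)
      have n2 : ‖z * (p : ℂ) ^ (-s) * (PS b (x / p) s - MT α' β' (x / p) s)‖ ≤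
          3 / 4 * ((7 * K + 9 * M) * y) := by
        rw [norm_mul, norm_mul]
        calc ‖z‖ * ‖(p : ℂ) ^ (-s)‖ * ‖PS b (x / p) s - MT α' β' (x / p) s‖ ≤
              1 * ‖(p : ℂ) ^ (-s)‖ * ((7 * K + 9 * M) * (y * (p : ℝ) ^ (1 / 2 : ℝ))) := by
              apply mul_le_mul _ ih' (norm_nonneg _) (by positivity)
              exact mul_le_mul_of_nonneg_right hz (norm_nonneg _)
          _ = (‖(p : ℂ) ^ (-s)‖ * (p : ℝ) ^ (1 / 2 : ℝ)) * ((7 * K + 9 * M) * y) := by ring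
          _ ≤ _ := mul_le_mul_of_nonneg_right hpn (by positivity)
      have n3 := norm_add_le ((PS a x s - MT α β x s) -
          (p : ℂ) ^ (-s) * (PS a (x / p) s - MT α β (x / p) s))
          (z * (p : ℂ) ^ (-s) * (PS b (x / p) s - MT α' β' (x / p) s))
      have n4 := norm_sub_le (PS a x s - MT α β x s)
          ((p : ℂ) ^ (-s) * (PS a (x / p) s - MT α β (x / p) s))
      have n5 : 0 ≤ M * y := by positivity
      nlinarith
  intro x hx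
  obtain ⟨n, hn⟩ := pow_unbounded_of_one_lt x (by linarith : (1 : ℝ) < p)
  exact hall n x hx hn

/-- the completely multiplicative function with the values `z p` at `p ∈ Q` and `1` at the other
primes -/
noncomputable def aQ (z : ℕ → ℂ) (Q : Finset ℕ) (n : ℕ) : ℂ := ∏ p ∈ Q, z p ^ (n.factorization p)

theorem asy (z : ℕ → ℂ) (Q : Finset ℕ) (hQ : ∀ p ∈ Q, p.Prime) (hz : ∀ p ∈ Q, ‖z p‖ ≤ 1) :
    ∃ K M : ℝ, 0 ≤ K ∧ ∀ s : ℂ, Dom s →
      ‖riemannZeta s * ∏ p ∈ Q, (1 - (p : ℂ) ^ (-s)) / (1 - z p * (p : ℂ) ^ (-s))‖ ≤ M ∧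
      ‖∏ p ∈ Q, (1 - (p : ℂ)⁻¹) / (1 - z p * (p : ℂ)⁻¹)‖ ≤ M ∧
      ∀ x : ℝ, 0 < x → ‖PS (aQ z Q) x s -
        MT (riemannZeta s * ∏ p ∈ Q, (1 - (p : ℂ) ^ (-s)) / (1 - z p * (p : ℂ) ^ (-s)))
          (∏ p ∈ Q, (1 - (p : ℂ)⁻¹) / (1 - z p * (p : ℂ)⁻¹)) x s‖ ≤ K * x ^ (-(1 / 2) : ℝ) := by
  classical
  induction Q using Finset.induction_on with
  | empty =>
    refine ⟨8, 6, by norm_num, fun s hs => ⟨?_, ?_, ?_⟩⟩
    · simpa using zeta_le hs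
    · simp
    · intro x hx
      have := base hs hx
      have e : aQ z ∅ = fun _ => 1 := by
        funext n; simp [aQ]
      rw [e]
      simpa using this
  | insert q Q hq ih =>
    obtain ⟨K, M, hK, h⟩ := ih (fun p hp => hQ p (Finset.mem_insert_of_mem hp))
      (fun p hp => hz p (Finset.mem_insert_of_mem hp))
    have hqp := hQ q (Finset.mem_insert_self _ _)
    refine ⟨7 * K + 9 * M, 3 * M, ?_, fun s hs => ?_⟩
    · have h0 : Dom (1 + I) := ⟨by simp, by simp; norm_num, by simp; norm_num, by simp⟩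
      have := (norm_nonneg _).trans (h _ h0).2.1
      positivity
    · obtain ⟨h1, h2, h3⟩ := h s hs
      have hst := step (a := aQ z Q) (b := aQ z (insert q Q)) hqp.two_le
        (hz q (Finset.mem_insert_self _ _)) ?_ ?_ ?_ hs hK h1 h2 h3
      · rw [Finset.prod_insert hq, Finset.prod_insert hq]
        have e1 : riemannZeta s * ((1 - (q : ℂ) ^ (-s)) / (1 - z q * (q : ℂ) ^ (-s)) *
            ∏ p ∈ Q, (1 - (p : ℂ) ^ (-s)) / (1 - z p * (p : ℂ) ^ (-s))) =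
            (riemannZeta s * ∏ p ∈ Q, (1 - (p : ℂ) ^ (-s)) / (1 - z p * (p : ℂ) ^ (-s))) *
            ((1 - (q : ℂ) ^ (-s)) / (1 - z q * (q : ℂ) ^ (-s))) := by ring
        have e2 : (1 - (q : ℂ)⁻¹) / (1 - z q * (q : ℂ)⁻¹) *
            ∏ p ∈ Q, (1 - (p : ℂ)⁻¹) / (1 - z p * (p : ℂ)⁻¹) =
            (∏ p ∈ Q, (1 - (p : ℂ)⁻¹) / (1 - z p * (p : ℂ)⁻¹)) *
            ((1 - (q : ℂ)⁻¹) / (1 - z q * (q : ℂ)⁻¹)) := by ring
        rw [e1, e2]
        exact hst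
      · intro n
        unfold aQ
        refine Finset.prod_congr rfl fun p hp => ?_
        have hpq : p ≠ q := fun h => hq (h ▸ hp)
        rcases Nat.eq_zero_or_pos n with rfl | hn
        · simp
        · rw [Nat.factorization_mul hqp.ne_zero hn.ne', Finsupp.add_apply, hqp.factorization,
            Finsupp.single_apply, if_neg (fun h => hpq h.symm), zero_add]
      · intro n hn
        unfold aQ
        rw [Finset.prod_insert hq, Nat.factorization_eq_zero_of_not_dvd hn, pow_zero, one_mul]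
      · intro n hn
        unfold aQ
        rw [Finset.prod_insert hq, Finset.prod_insert hq]
        have e1 : ∀ p ∈ Q, z p ^ ((q * n).factorization p) = z p ^ (n.factorization p) := by
          intro p hp
          have hpq : p ≠ q := fun h => hq (h ▸ hp)
          rw [Nat.factorization_mul hqp.ne_zero hn, Finsupp.add_apply, hqp.factorization,
            Finsupp.single_apply, if_neg (fun h => hpq h.symm), zero_add]
        rw [Finset.prod_congr rfl e1, Nat.factorization_mul hqp.ne_zero hn, Finsupp.add_apply,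
          hqp.factorization, Finsupp.single_apply, if_pos rfl, pow_add, pow_one]
        ring

end Pool.Agent.X108.TU
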