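import Mathlib

/-!
# A finite set of primes and unimodular numbers with a large ratio of Euler products
-/

set_option autoImplicit false

namespace Pool.Agent.X108.TU

open Filter Topology Finset Complex

lemma log_norm_sub (x : ℂ) (hx : ‖x‖ ≤ 1 / 2) : |Real.log ‖1 - x‖ + x.re| ≤ ‖x‖ ^ 2 := by
  have h1 := Complex.norm_log_one_add_sub_self_le (z := -x) (by rw [norm_neg]; linarith)
  rw [norm_neg] at h1
  have h2 : |(Complex.log (1 + -x) - -x).re| ≤ ‖Complex.log (1 + -x) - -x‖ := Complex.abs_re_le_norm _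
  have h3 : (Complex.log (1 + -x) - -x).re = Real.log ‖1 - x‖ + x.re := by
    rw [Complex.sub_re, Complex.log_re, Complex.neg_re, ← sub_eq_add_neg]
    ring
  rw [h3] at h2
  refine h2.trans (h1.trans ?_)
  have h4 : (1 - ‖x‖)⁻¹ ≤ 2 := by
    rw [inv_le_comm₀ (by linarith) (by norm_num)]
    linarith
  have h5 : 0 ≤ ‖x‖ ^ 2 := by positivity
  nlinarith

lemma pw (p : ℕ) (hp : 0 < p) (σ t : ℝ) : ((p : ℂ) ^ (-((σ : ℂ) + t * I))) =
    ((p : ℝ) ^ (-σ) : ℝ) * cexp (-(t * Real.log p : ℝ) * I) := by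
  have hp0 : (p : ℂ) ≠ 0 := by exact_mod_cast hp.ne'
  have hpr : (0 : ℝ) < p := by exact_mod_cast hp
  rw [Real.rpow_def_of_pos hpr, Complex.cpow_def_of_ne_zero hp0, Complex.ofReal_exp, ← Complex.exp_add,
    ← Complex.natCast_log]
  congr 1
  push_cast
  ring

lemma exp_re (u : ℝ) : (cexp (-(u : ℝ) * I)).re = Real.cos u := by
  have : (-(u : ℂ)) * I = ((-u : ℝ) : ℂ) * I := by push_cast; ring
  rw [this, Complex.exp_ofReal_mul_I_re, Real.cos_neg]

lemma exp_norm (u : ℝ) : ‖cexp (-(u : ℝ) * I)‖ = 1 := by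
  have : (-(u : ℂ)) * I = ((-u : ℝ) : ℂ) * I := by push_cast; ring
  rw [this, Complex.norm_exp_ofReal_mul_I]

lemma inv_half {p : ℕ} (hp : p.Prime) : (1 : ℝ) / p ≤ 1 / 2 := by
  have : (2 : ℝ) ≤ p := by exact_mod_cast hp.two_le
  exact one_div_le_one_div_of_le (by norm_num) this

/-- the sum over primes diverges -/
theorem diverge (M : ℝ) : ∃ n : ℕ, M < ∑ p ∈ Nat.primesBelow n, (1 - Real.cos (2 * Real.log p)) / p := by
  by_contra hcon
  push Not at hcon
  obtain ⟨c, hc⟩ : ∃ c : ℝ, ∀ n : ℕ, ∑ p ∈ Nat.primesBelow n, 2 / (p : ℝ) ^ 2 ≤ c := by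
    have hs : Summable (fun n : ℕ => 2 / (n : ℝ) ^ 2) := by
      have := (Real.summable_one_div_nat_pow (p := 2)).2 one_lt_two
      exact (this.mul_left 2).congr fun n => by ring
    exact ⟨∑' n : ℕ, 2 / (n : ℝ) ^ 2, fun n => hs.sum_le_tsum _ (fun i _ => by positivity)⟩
  have key : ∀ σ : ℝ, 1 < σ → ‖riemannZeta σ‖ ≤ Real.exp (M + c) * ‖riemannZeta ((σ : ℂ) + 2 * I)‖ := by
    intro σ hσ
    have h1 := (riemannZeta_eulerProduct (s := (σ : ℂ)) (by simpa using hσ)).norm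
    have h2 := (riemannZeta_eulerProduct (s := (σ : ℂ) + 2 * I) (by simpa using hσ)).norm
    refine le_of_tendsto_of_tendsto' h1 (h2.const_mul _) fun n => ?_
    rw [norm_prod, norm_prod]
    have hterm : ∀ p ∈ Nat.primesBelow n, ‖(1 - (p : ℂ) ^ (-(σ : ℂ)))⁻¹‖ ≤
        Real.exp ((1 - Real.cos (2 * Real.log p)) / p + 2 / (p : ℝ) ^ 2) *
          ‖(1 - (p : ℂ) ^ (-((σ : ℂ) + 2 * I)))⁻¹‖ := by
      intro p hp
      have hpp := Nat.prime_of_mem_primesBelow hp
      have hp0 : (0 : ℝ) < p := by exact_mod_cast hpp.pos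
      have hx : (p : ℂ) ^ (-(σ : ℂ)) = (((p : ℝ) ^ (-σ) : ℝ) : ℂ) := by
        have := pw p hpp.pos σ 0
        simpa using this
      have hy : (p : ℂ) ^ (-((σ : ℂ) + 2 * I)) = ((p : ℝ) ^ (-σ) : ℝ) * cexp (-(2 * Real.log p : ℝ) * I) := by
        have := pw p hpp.pos σ 2
        simpa using this
      set x : ℝ := (p : ℝ) ^ (-σ) with hxdef
      have hx0 : 0 ≤ x := by positivity
      have hx1 : x ≤ 1 / p := by
        rw [one_div, ← Real.rpow_neg_one]
        exact Real.rpow_le_rpow_of_exponent_le (by exact_mod_cast hpp.one_le) (by linarith)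
      have hh := inv_half hpp
      rw [hx, hy]
      have hnx : ‖((x : ℝ) : ℂ)‖ = x := by rw [Complex.norm_real, Real.norm_of_nonneg hx0]
      have hny : ‖((x : ℝ) : ℂ) * cexp (-(2 * Real.log p : ℝ) * I)‖ = x := by
        rw [norm_mul, hnx, exp_norm, mul_one]
      have l1 := abs_le.1 (log_norm_sub ((x : ℝ) : ℂ) (by rw [hnx]; linarith))
      have l2 := abs_le.1 (log_norm_sub (((x : ℝ) : ℂ) * cexp (-(2 * Real.log p : ℝ) * I))
        (by rw [hny]; linarith))
      rw [hnx, Complex.ofReal_re] at l1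
      rw [hny, Complex.re_ofReal_mul, exp_re] at l2
      have n1 : 0 < ‖1 - ((x : ℝ) : ℂ)‖ := by
        rw [norm_pos_iff]
        intro h
        have := congrArg Complex.re h
        simp at this
        linarith
      have n2 : 0 < ‖1 - ((x : ℝ) : ℂ) * cexp (-(2 * Real.log p : ℝ) * I)‖ := by
        have := norm_sub_norm_le (1 : ℂ) (((x : ℝ) : ℂ) * cexp (-(2 * Real.log p : ℝ) * I))
        rw [hny, norm_one] at this
        linarith
      rw [norm_inv, norm_inv]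
      have hfin : Real.log ‖1 - ((x : ℝ) : ℂ) * cexp (-(2 * Real.log p : ℝ) * I)‖ ≤
          (1 - Real.cos (2 * Real.log p)) / p + 2 / (p : ℝ) ^ 2 + Real.log ‖1 - ((x : ℝ) : ℂ)‖ := by
        have e1 : x ^ 2 ≤ 1 / (p : ℝ) ^ 2 := by
          calc x ^ 2 ≤ (1 / p) ^ 2 := pow_le_pow_left₀ hx0 hx1 2
            _ = 1 / (p : ℝ) ^ 2 := by rw [div_pow, one_pow]
        have e2 : x * (1 - Real.cos (2 * Real.log p)) ≤ (1 - Real.cos (2 * Real.log p)) / p := by
          have := Real.cos_le_one (2 * Real.log p)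
          calc x * (1 - Real.cos (2 * Real.log p)) ≤ 1 / p * (1 - Real.cos (2 * Real.log p)) := by
                apply mul_le_mul_of_nonneg_right hx1; linarith
            _ = _ := by ring
        have e3 : 2 / (p : ℝ) ^ 2 = 2 * (1 / (p : ℝ) ^ 2) := by ring
        rw [e3]
        nlinarith [l1.1, l2.2]
      have h5 : ‖1 - ((x : ℝ) : ℂ) * cexp (-(2 * Real.log p : ℝ) * I)‖ ≤
          Real.exp ((1 - Real.cos (2 * Real.log p)) / p + 2 / (p : ℝ) ^ 2) * ‖1 - ((x : ℝ) : ℂ)‖ := by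
        rw [← Real.exp_log n2]
        conv_rhs => rw [← Real.exp_log n1]
        rw [← Real.exp_add]
        exact Real.exp_le_exp.2 hfin
      rw [inv_le_iff_one_le_mul₀ n1, mul_right_comm, ← div_eq_mul_inv, one_le_div₀ n2]
      exact h5
    calc ∏ p ∈ Nat.primesBelow n, ‖(1 - (p : ℂ) ^ (-(σ : ℂ)))⁻¹‖ ≤
        ∏ p ∈ Nat.primesBelow n, (Real.exp ((1 - Real.cos (2 * Real.log p)) / p + 2 / (p : ℝ) ^ 2) *
          ‖(1 - (p : ℂ) ^ (-((σ : ℂ) + 2 * I)))⁻¹‖) :=
          Finset.prod_le_prod (fun _ _ => norm_nonneg _) hterm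
      _ = Real.exp (∑ p ∈ Nat.primesBelow n, (1 - Real.cos (2 * Real.log p)) / p +
            ∑ p ∈ Nat.primesBelow n, 2 / (p : ℝ) ^ 2) *
            ∏ p ∈ Nat.primesBelow n, ‖(1 - (p : ℂ) ^ (-((σ : ℂ) + 2 * I)))⁻¹‖ := by
          rw [Finset.prod_mul_distrib, ← Real.exp_sum, Finset.sum_add_distrib]
      _ ≤ _ := by
          apply mul_le_mul_of_nonneg_right _ (Finset.prod_nonneg fun _ _ => norm_nonneg _)
          exact Real.exp_le_exp.2 (add_le_add (hcon n) (hc n))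
  -- contradiction at the pole
  have h1 : Tendsto (fun σ : ℝ => ‖((σ : ℂ) - 1) * riemannZeta σ‖) (𝓝[>] 1) (𝓝 1) := by
    have hr := riemannZeta_residue_one.norm
    rw [norm_one] at hr
    refine hr.comp ?_
    rw [tendsto_nhdsWithin_iff]
    constructor
    · exact (Complex.continuous_ofReal.tendsto' 1 1 (by simp)).mono_left nhdsWithin_le_nhds
    · filter_upwards [self_mem_nhdsWithin] with σ hσ
      simp only [Set.mem_compl_iff, Set.mem_singleton_iff]
      intro h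
      have h2 : σ = 1 := by exact_mod_cast h
      exact absurd hσ (by rw [h2]; simp)
  have h2 : Tendsto (fun σ : ℝ => |σ - 1| * (Real.exp (M + c) * ‖riemannZeta ((σ : ℂ) + 2 * I)‖))
      (𝓝[>] 1) (𝓝 0) := by
    have hcont : ContinuousAt (fun σ : ℝ => |σ - 1| * (Real.exp (M + c) * ‖riemannZeta ((σ : ℂ) + 2 * I)‖)) 1 := by
      apply ContinuousAt.mul
      · fun_prop
      · apply ContinuousAt.mul continuousAt_const
        apply ContinuousAt.norm
        have hne : ((1 : ℝ) : ℂ) + 2 * I ≠ 1 := by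
          intro h
          have := congrArg Complex.im h
          simp at this
        have hz : ContinuousAt riemannZeta (((1 : ℝ) : ℂ) + 2 * I) :=
          (differentiableAt_riemannZeta hne).continuousAt
        exact ContinuousAt.comp (f := fun σ : ℝ => (σ : ℂ) + 2 * I) hz (by fun_prop)
    have := hcont.tendsto
    simp only [sub_self, abs_zero, zero_mul] at this
    exact this.mono_left nhdsWithin_le_nhds
  have h3 : (1 : ℝ) ≤ 0 := by
    refine le_of_tendsto_of_tendsto h1 h2 ?_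
    filter_upwards [self_mem_nhdsWithin] with σ hσ
    rw [norm_mul]
    have e : ‖(σ : ℂ) - 1‖ = |σ - 1| := by
      rw [← Complex.ofReal_one, ← Complex.ofReal_sub, Complex.norm_real, Real.norm_eq_abs]
    rw [e]
    exact mul_le_mul_of_nonneg_left (key σ hσ) (abs_nonneg _)
  linarith

/-- one prime not dividing `k` -/
lemma one_prime {p : ℕ} (hp : p.Prime) : ∃ z : ℂ, ‖z‖ = 1 ∧
    Real.exp ((1 - Real.cos (2 * Real.log p)) / (8 * p) - 4 / (p : ℝ) ^ 2) *
      ‖(1 - (p : ℂ) ^ (-(1 + I))) / (1 - z * (p : ℂ) ^ (-(1 + I)))‖ ≤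
      ‖(1 - (p : ℂ)⁻¹) / (1 - z * (p : ℂ)⁻¹)‖ := by
  have hp0 : (0 : ℝ) < p := by exact_mod_cast hp.pos
  have hh := inv_half hp
  set E : ℂ := cexp (-(Real.log p : ℝ) * I) with hE
  have hEn : ‖E‖ = 1 := exp_norm _
  have hEr : E.re = Real.cos (Real.log p) := exp_re _
  have hq : (p : ℂ) ^ (-(1 + I)) = ((1 / p : ℝ) : ℂ) * E := by
    have h := pw p hp.pos 1 1
    simp only [Complex.ofReal_one, one_mul] at h
    rw [h, Real.rpow_neg_one, ← one_div]
  have hi : (p : ℂ)⁻¹ = ((1 / p : ℝ) : ℂ) := by push_cast; rw [one_div]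
  obtain ⟨z, hz1, hz2⟩ : ∃ z : ℂ, ‖z‖ = 1 ∧ (z * (1 - E)).re = ‖1 - E‖ := by
    by_cases h : 1 - E = 0
    · exact ⟨1, norm_one, by rw [h]; simp⟩
    · refine ⟨(starRingEnd ℂ) (1 - E) / ‖1 - E‖, ?_, ?_⟩
      · rw [norm_div, RCLike.norm_conj, Complex.norm_real, norm_norm, div_self (norm_ne_zero_iff.2 h)]
      · have : (starRingEnd ℂ) (1 - E) / (‖1 - E‖ : ℂ) * (1 - E) = ((‖1 - E‖ : ℝ) : ℂ) := by
          rw [div_mul_eq_mul_div, mul_comm, Complex.mul_conj, Complex.normSq_eq_norm_sq]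
          have h' : ((‖1 - E‖ : ℝ) : ℂ) ≠ 0 := by exact_mod_cast norm_ne_zero_iff.2 h
          push_cast
          field_simp
        rw [this, Complex.ofReal_re]
  refine ⟨z, hz1, ?_⟩
  set v : ℝ := ‖1 - E‖ with hv
  have hv0 : 0 ≤ v := norm_nonneg _
  have hv2 : v ^ 2 = 2 - 2 * Real.cos (Real.log p) := by
    rw [hv, ← Complex.normSq_eq_norm_sq, Complex.normSq_sub, Complex.normSq_one, Complex.normSq_eq_norm_sq,
      hEn, ← hEr]
    simp
    ring
  set u : ℝ := 1 / p with hu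
  have hu0 : 0 < u := by positivity
  have hnu : ‖((u : ℝ) : ℂ)‖ = u := by rw [Complex.norm_real, Real.norm_of_nonneg hu0.le]
  have b1 : ‖((u : ℝ) : ℂ) * E‖ = u := by rw [norm_mul, hnu, hEn, mul_one]
  have b2 : ‖z * ((u : ℝ) : ℂ)‖ = u := by rw [norm_mul, hnu, hz1, one_mul]
  have b3 : ‖z * (((u : ℝ) : ℂ) * E)‖ = u := by rw [norm_mul, b1, hz1, one_mul]
  have l1 := abs_le.1 (log_norm_sub _ (by rw [hnu]; exact hh))
  have l2 := abs_le.1 (log_norm_sub _ (by rw [b1]; exact hh))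
  have l3 := abs_le.1 (log_norm_sub _ (by rw [b2]; exact hh))
  have l4 := abs_le.1 (log_norm_sub _ (by rw [b3]; exact hh))
  rw [hnu] at l1
  rw [b1] at l2
  rw [b2] at l3
  rw [b3] at l4
  have pos : ∀ x : ℂ, ‖x‖ = u → 0 < ‖1 - x‖ := by
    intro x hx
    have := norm_sub_norm_le (1 : ℂ) x
    rw [hx, norm_one] at this
    linarith
  have p1 := pos _ hnu
  have p2 := pos _ b1
  have p3 := pos _ b2
  have p4 := pos _ b3
  have hre : u - (((u : ℝ) : ℂ) * E).re - (z * ((u : ℝ) : ℂ)).re + (z * (((u : ℝ) : ℂ) * E)).re =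
      u * (1 - Real.cos (Real.log p) - v) := by
    have e1 : (((u : ℝ) : ℂ) * E).re = u * Real.cos (Real.log p) := by
      rw [Complex.re_ofReal_mul, hEr]
    have e2 : (z * ((u : ℝ) : ℂ)).re - (z * (((u : ℝ) : ℂ) * E)).re = u * v := by
      rw [← Complex.sub_re]
      have : z * ((u : ℝ) : ℂ) - z * (((u : ℝ) : ℂ) * E) = ((u : ℝ) : ℂ) * (z * (1 - E)) := by ring
      rw [this, Complex.re_ofReal_mul, hz2]
    linarith
  have hgain : (1 - Real.cos (2 * Real.log p)) / 8 ≤ v - (1 - Real.cos (Real.log p)) := by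
    rw [Real.cos_two_mul]
    have hc : Real.cos (Real.log p) = 1 - v ^ 2 / 2 := by linarith
    rw [hc]
    have : 0 ≤ v * (v - 2) ^ 2 * (v + 4) := by positivity
    nlinarith
  have hlog : (1 - Real.cos (2 * Real.log p)) / (8 * p) - 4 / (p : ℝ) ^ 2 +
      (Real.log ‖1 - ((u : ℝ) : ℂ) * E‖ - Real.log ‖1 - z * (((u : ℝ) : ℂ) * E)‖) ≤
      Real.log ‖1 - ((u : ℝ) : ℂ)‖ - Real.log ‖1 - z * ((u : ℝ) : ℂ)‖ := by
    have e1 : (1 - Real.cos (2 * Real.log p)) / (8 * p) = u * ((1 - Real.cos (2 * Real.log p)) / 8) := by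
      rw [hu]; field_simp
    have e2 : 4 / (p : ℝ) ^ 2 = 4 * u ^ 2 := by rw [hu]; field_simp
    rw [e1, e2]
    have h1 := mul_le_mul_of_nonneg_left hgain hu0.le
    rw [Complex.ofReal_re] at l1
    linarith [l1.1, l2.2, l3.2, l4.1, l1.2, l2.1, l3.1, l4.2]
  rw [hq, hi, norm_div, norm_div]
  calc Real.exp ((1 - Real.cos (2 * Real.log p)) / (8 * p) - 4 / (p : ℝ) ^ 2) *
      (‖1 - ((u : ℝ) : ℂ) * E‖ / ‖1 - z * (((u : ℝ) : ℂ) * E)‖) =
      Real.exp ((1 - Real.cos (2 * Real.log p)) / (8 * p) - 4 / (p : ℝ) ^ 2 +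
        (Real.log ‖1 - ((u : ℝ) : ℂ) * E‖ - Real.log ‖1 - z * (((u : ℝ) : ℂ) * E)‖)) := by
        rw [Real.exp_add, Real.exp_sub (Real.log _), Real.exp_log p2, Real.exp_log p4]
    _ ≤ Real.exp (Real.log ‖1 - ((u : ℝ) : ℂ)‖ - Real.log ‖1 - z * ((u : ℝ) : ℂ)‖) := Real.exp_le_exp.2 hlog
    _ = _ := by rw [Real.exp_sub, Real.exp_log p1, Real.exp_log p3]

/-- A finite set of primes and numbers with a large ratio of Euler products. -/
theorem ratio (k : ℕ) (hk : k ≠ 0) (C : ℝ) : ∃ (Q : Finset ℕ) (z : ℕ → ℂ), (∀ p ∈ Q, p.Prime) ∧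
    (∀ p : ℕ, p.Prime → p ∣ k → p ∈ Q) ∧ (∀ p ∈ Q, p ∣ k → z p = 0) ∧ (∀ p ∈ Q, ¬ p ∣ k → ‖z p‖ = 1) ∧
    C * ∏ p ∈ Q, ‖(1 - (p : ℂ) ^ (-(1 + I))) / (1 - z p * (p : ℂ) ^ (-(1 + I)))‖ <
      ∏ p ∈ Q, ‖(1 - (p : ℂ)⁻¹) / (1 - z p * (p : ℂ)⁻¹)‖ := by
  classical
  obtain ⟨c, hc⟩ : ∃ c : ℝ, ∀ n : ℕ, ∑ p ∈ Nat.primesBelow n, 4 / (p : ℝ) ^ 2 ≤ c := by
    have hs : Summable (fun n : ℕ => 4 / (n : ℝ) ^ 2) := by
      have := (Real.summable_one_div_nat_pow (p := 2)).2 one_lt_two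
      exact (this.mul_left 4).congr fun n => by ring
    exact ⟨∑' n : ℕ, 4 / (n : ℝ) ^ 2, fun n => hs.sum_le_tsum _ (fun i _ => by positivity)⟩
  obtain ⟨C', hC'⟩ : ∃ C' : ℝ, C < Real.exp C' := ⟨C, by linarith [Real.add_one_le_exp C]⟩
  obtain ⟨m, hm⟩ := diverge (8 * (C' + c + 3 * (k + 1)))
  obtain ⟨n, hn⟩ : ∃ n : ℕ, n = max m (k + 1) := ⟨_, rfl⟩
  have hsum : 8 * (C' + c + 3 * (k + 1)) < ∑ p ∈ Nat.primesBelow n, (1 - Real.cos (2 * Real.log p)) / p := by
    refine hm.trans_le (Finset.sum_le_sum_of_subset_of_nonneg ?_ ?_)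
    · intro p hp
      rw [Nat.mem_primesBelow] at hp ⊢
      exact ⟨lt_of_lt_of_le hp.1 (by omega), hp.2⟩
    · intro p _ _
      have := Real.cos_le_one (2 * Real.log p)
      exact div_nonneg (by linarith) (by positivity)
  have hex : ∀ p : ℕ, ∃ z : ℂ, p.Prime → (p ∣ k → z = 0) ∧ (¬ p ∣ k → ‖z‖ = 1) ∧
      Real.exp ((1 - Real.cos (2 * Real.log p)) / (8 * p) - 4 / (p : ℝ) ^ 2 - (if p ∣ k then 3 else 0)) *
      ‖(1 - (p : ℂ) ^ (-(1 + I))) / (1 - z * (p : ℂ) ^ (-(1 + I)))‖ ≤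
      ‖(1 - (p : ℂ)⁻¹) / (1 - z * (p : ℂ)⁻¹)‖ := by
    intro p
    by_cases hp : p.Prime
    · by_cases hpk : p ∣ k
      · refine ⟨0, fun _ => ⟨fun _ => rfl, fun h => absurd hpk h, ?_⟩⟩
        rw [if_pos hpk]
        simp only [zero_mul, sub_zero, div_one]
        have hp0 : (0 : ℝ) < p := by exact_mod_cast hp.pos
        have hp2 : (2 : ℝ) ≤ p := by exact_mod_cast hp.two_le
        have hh := inv_half hp
        have n1 : ‖(p : ℂ)⁻¹‖ = 1 / p := by rw [norm_inv, Complex.norm_natCast, one_div]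
        have n2 : ‖(p : ℂ) ^ (-(1 + I))‖ = 1 / p := by
          rw [Complex.norm_natCast_cpow_of_pos hp.pos]
          simp [Real.rpow_neg_one]
        have h1 : 1 / 2 ≤ ‖1 - (p : ℂ)⁻¹‖ := by
          have := norm_sub_norm_le (1 : ℂ) ((p : ℂ)⁻¹)
          rw [n1, norm_one] at this
          linarith
        have h2 : ‖1 - (p : ℂ) ^ (-(1 + I))‖ ≤ 3 / 2 := by
          have := norm_sub_le (1 : ℂ) ((p : ℂ) ^ (-(1 + I)))
          rw [n2, norm_one] at this
          linarith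
        have h3 : Real.exp ((1 - Real.cos (2 * Real.log p)) / (8 * p) - 4 / (p : ℝ) ^ 2 - 3) ≤ 1 / 3 := by
          have h4 : (1 - Real.cos (2 * Real.log p)) / (8 * p) ≤ 1 := by
            rw [div_le_one (by positivity)]
            have := Real.neg_one_le_cos (2 * Real.log p)
            linarith
          have h5 : 0 ≤ 4 / (p : ℝ) ^ 2 := by positivity
          calc Real.exp ((1 - Real.cos (2 * Real.log p)) / (8 * p) - 4 / (p : ℝ) ^ 2 - 3) ≤
              Real.exp (-2) := Real.exp_le_exp.2 (by linarith)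
            _ ≤ 1 / 3 := by
                rw [Real.exp_neg, one_div]
                apply inv_anti₀ (by norm_num)
                have := Real.add_one_le_exp (2 : ℝ)
                linarith
        calc Real.exp ((1 - Real.cos (2 * Real.log p)) / (8 * p) - 4 / (p : ℝ) ^ 2 - 3) *
            ‖1 - (p : ℂ) ^ (-(1 + I))‖ ≤ 1 / 3 * (3 / 2) :=
              mul_le_mul h3 h2 (norm_nonneg _) (by norm_num)
          _ ≤ _ := by linarith
      · obtain ⟨z, hz, h⟩ := one_prime hp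
        refine ⟨z, fun _ => ⟨fun h => absurd h hpk, fun _ => hz, ?_⟩⟩
        rw [if_neg hpk, sub_zero]
        exact h
    · exact ⟨0, fun h => absurd h hp⟩
  choose z hz using hex
  refine ⟨Nat.primesBelow n, z, fun p hp => Nat.prime_of_mem_primesBelow hp, ?_, ?_, ?_, ?_⟩
  · intro p hp hpk
    rw [Nat.mem_primesBelow]
    exact ⟨lt_of_le_of_lt (Nat.le_of_dvd (Nat.pos_of_ne_zero hk) hpk) (by omega), hp⟩
  · intro p hp
    exact (hz p (Nat.prime_of_mem_primesBelow hp)).1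
  · intro p hp
    exact (hz p (Nat.prime_of_mem_primesBelow hp)).2.1
  · set R := ∏ p ∈ Nat.primesBelow n, ‖(1 - (p : ℂ) ^ (-(1 + I))) / (1 - z p * (p : ℂ) ^ (-(1 + I)))‖ with hR
    have hRpos : 0 < R := by
      apply Finset.prod_pos
      intro p hp
      have hpp := Nat.prime_of_mem_primesBelow hp
      have hh := inv_half hpp
      have n2 : ‖(p : ℂ) ^ (-(1 + I))‖ = 1 / p := by
        rw [Complex.norm_natCast_cpow_of_pos hpp.pos]
        simp [Real.rpow_neg_one]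
      have hzl : ‖z p‖ ≤ 1 := by
        by_cases h : p ∣ k
        · rw [(hz p hpp).1 h]; simp
        · rw [(hz p hpp).2.1 h]
      have h1 : 0 < ‖1 - (p : ℂ) ^ (-(1 + I))‖ := by
        have := norm_sub_norm_le (1 : ℂ) ((p : ℂ) ^ (-(1 + I)))
        rw [n2, norm_one] at this
        linarith
      have h2 : 0 < ‖1 - z p * (p : ℂ) ^ (-(1 + I))‖ := by
        have := norm_sub_norm_le (1 : ℂ) (z p * (p : ℂ) ^ (-(1 + I)))
        rw [norm_mul, n2, norm_one] at this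
        have h3 : ‖z p‖ * (1 / p) ≤ 1 * (1 / 2) := mul_le_mul hzl hh (by positivity) (by norm_num)
        linarith
      rw [norm_div]
      exact div_pos h1 h2
    have hprod : (∏ p ∈ Nat.primesBelow n,
        Real.exp ((1 - Real.cos (2 * Real.log p)) / (8 * p) - 4 / (p : ℝ) ^ 2 - (if p ∣ k then 3 else 0))) * R ≤
        ∏ p ∈ Nat.primesBelow n, ‖(1 - (p : ℂ)⁻¹) / (1 - z p * (p : ℂ)⁻¹)‖ := by
      rw [hR, ← Finset.prod_mul_distrib]
      exact Finset.prod_le_prod (fun p _ => by positivity)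
        (fun p hp => (hz p (Nat.prime_of_mem_primesBelow hp)).2.2)
    refine lt_of_lt_of_le ?_ hprod
    apply mul_lt_mul_of_pos_right _ hRpos
    rw [← Real.exp_sum, Finset.sum_sub_distrib, Finset.sum_sub_distrib]
    refine hC'.trans_le (Real.exp_le_exp.2 ?_)
    have h1 : ∑ p ∈ Nat.primesBelow n, (1 - Real.cos (2 * Real.log p)) / (8 * (p : ℝ)) =
        (∑ p ∈ Nat.primesBelow n, (1 - Real.cos (2 * Real.log p)) / p) / 8 := by
      rw [Finset.sum_div]
      exact Finset.sum_congr rfl fun p _ => by rw [div_div, mul_comm (p : ℝ) 8]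
    have h2 : ∑ p ∈ Nat.primesBelow n, (if p ∣ k then (3 : ℝ) else 0) ≤ 3 * (k + 1) := by
      rw [← Finset.sum_filter, Finset.sum_const, nsmul_eq_mul]
      have h3 : ((Nat.primesBelow n).filter (fun p => p ∣ k)).card ≤ k + 1 := by
        calc ((Nat.primesBelow n).filter (fun p => p ∣ k)).card ≤ (Finset.range (k + 1)).card := by
              apply Finset.card_le_card
              intro p hp
              rw [Finset.mem_filter] at hp
              rw [Finset.mem_range]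
              exact Nat.lt_succ_of_le (Nat.le_of_dvd (Nat.pos_of_ne_zero hk) hp.2)
          _ = k + 1 := Finset.card_range _
      have h4 : ((((Nat.primesBelow n).filter (fun p => p ∣ k)).card : ℕ) : ℝ) ≤ k + 1 := by exact_mod_cast h3
      linarith
    have h3 := hc n
    rw [h1]
    linarith

end Pool.Agent.X108.TU
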