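import Pool.Agent.X108.TU.Asy
import Pool.Agent.X108.TU.Rat
import Pool.Agent.W755.HaightA
import Pool.Agent.Helper671.UP.DNZ

/-!
# Partial sums of Dirichlet L-functions have zeros in `Re s > 1`
-/

set_option autoImplicit false

namespace Pool.Agent.X108.TU

open Filter Topology Finset Complex

/-- `S_N(s, χ) = ∑_{n ≤ N} χ(n) n^{-s}` -/
noncomputable def partialSum {k : ℕ} (χ : DirichletCharacter ℂ k) (N : ℕ) (s : ℂ) : ℂ :=
  ∑ n ∈ Icc 1 N, χ (n : ZMod k) * (n : ℂ) ^ (-s)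

lemma aQ_mul (z : ℕ → ℂ) (Q : Finset ℕ) {m n : ℕ} (hm : m ≠ 0) (hn : n ≠ 0) :
    aQ z Q (m * n) = aQ z Q m * aQ z Q n := by
  unfold aQ
  rw [← Finset.prod_mul_distrib]
  refine Finset.prod_congr rfl fun p _ => ?_
  rw [Nat.factorization_mul hm hn, Finsupp.add_apply, pow_add]

lemma aQ_norm (z : ℕ → ℂ) (Q : Finset ℕ) (hz : ∀ p ∈ Q, ‖z p‖ ≤ 1) (n : ℕ) : ‖aQ z Q n‖ ≤ 1 := by
  unfold aQ
  rw [norm_prod]
  refine Finset.prod_le_one (fun _ _ => norm_nonneg _) fun p hp => ?_
  rw [norm_pow]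
  exact pow_le_one₀ (norm_nonneg _) (hz p hp)

lemma aQ_one (z : ℕ → ℂ) (Q : Finset ℕ) : aQ z Q 1 = 1 := by
  simp [aQ]

lemma aQ_prime (z : ℕ → ℂ) (Q : Finset ℕ) {p : ℕ} (hp : p.Prime) :
    (p ∈ Q → aQ z Q p = z p) ∧ (p ∉ Q → aQ z Q p = 1) := by
  classical
  constructor
  · intro h
    unfold aQ
    rw [Finset.prod_eq_single p]
    · rw [hp.factorization, Finsupp.single_apply, if_pos rfl, pow_one]
    · intro q _ hqp
      rw [hp.factorization, Finsupp.single_apply, if_neg (fun h => hqp h.symm), pow_zero]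
    · intro h'; exact absurd h h'
  · intro h
    unfold aQ
    refine Finset.prod_eq_one fun q hq => ?_
    have hpq : ¬ p = q := fun h' => h (by rw [h']; exact hq)
    rw [hp.factorization, Finsupp.single_apply, if_neg hpq, pow_zero]

/-- Kronecker: the function `aQ` is approximated by `χ(n) n^{-it}`. -/
theorem approx {k : ℕ} [NeZero k] (χ : DirichletCharacter ℂ k) (z : ℕ → ℂ) (Q : Finset ℕ)
    (hk : ∀ p : ℕ, p.Prime → p ∣ k → p ∈ Q) (hz0 : ∀ p ∈ Q, p ∣ k → z p = 0)
    (hz1 : ∀ p ∈ Q, ¬ p ∣ k → ‖z p‖ = 1) (N : ℕ) (ε : ℝ) (hε : 0 < ε) (T0 : ℝ) :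
    ∃ t > T0, ∀ n : ℕ, 1 ≤ n → n ≤ N → ‖χ (n : ZMod k) * (n : ℂ) ^ (-(t * I)) - aQ z Q n‖ ≤ (n - 1) * ε := by
  have hpi := Real.pi_pos
  have hzle : ∀ p ∈ Q, ‖z p‖ ≤ 1 := by
    intro p hp
    by_cases h : p ∣ k
    · rw [hz0 p hp h]; simp
    · exact (hz1 p hp h).le
  have hcop : ∀ p : ℕ, p.Prime → ¬ p ∣ k → ‖χ (p : ZMod k)‖ = 1 := by
    intro p hp hpk
    have hu : IsUnit ((p : ℕ) : ZMod k) := by
      rw [ZMod.isUnit_iff_coprime]
      exact (Nat.Prime.coprime_iff_not_dvd hp).2 hpk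
    obtain ⟨u, hu⟩ := hu
    rw [← hu]
    exact χ.unit_norm_eq_one u
  have hnon : ∀ p : ℕ, p.Prime → p ∣ k → χ (p : ZMod k) = 0 := by
    intro p hp hpk
    apply χ.map_nonunit
    rw [ZMod.isUnit_iff_coprime]
    intro h
    exact (Nat.Prime.coprime_iff_not_dvd hp).1 h hpk
  obtain ⟨t0, ht0, h⟩ := Pool.Agent.W755.Haight.phases (N + 1)
    (fun p => -(aQ z Q p / χ (p : ZMod k)).arg / (2 * Real.pi)) (ε / (2 * Real.pi)) (by positivity)
    (T0 / (2 * Real.pi))
  refine ⟨2 * Real.pi * t0, ?_, ?_⟩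
  · rw [gt_iff_lt, div_lt_iff₀ (by positivity)] at ht0
    linarith
  obtain ⟨t, ht⟩ : ∃ t : ℝ, t = 2 * Real.pi * t0 := ⟨_, rfl⟩
  rw [← ht]
  set f : ℕ → ℂ := fun n => χ (n : ZMod k) * (n : ℂ) ^ (-(t * I)) with hf
  have hfn : ∀ n : ℕ, 1 ≤ n → ‖f n‖ ≤ 1 := by
    intro n hn
    rw [hf]
    simp only
    rw [norm_mul, Complex.norm_natCast_cpow_of_pos hn]
    have : (-((t : ℂ) * I)).re = 0 := by simp
    rw [this, Real.rpow_zero, mul_one]
    exact χ.norm_le_one _
  have hprime : ∀ p : ℕ, p.Prime → p ≤ N → ‖f p - aQ z Q p‖ ≤ ε := by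
    intro p hp hpN
    by_cases hpk : p ∣ k
    · rw [hf]
      simp only
      rw [hnon p hp hpk, (aQ_prime z Q hp).1 (hk p hp hpk), hz0 p (hk p hp hpk) hpk]
      simp [hε.le]
    · have hχ := hcop p hp hpk
      have hχ0 : χ (p : ZMod k) ≠ 0 := by
        intro h0
        rw [h0, norm_zero] at hχ
        exact zero_ne_one hχ
      have ha1 : ‖aQ z Q p‖ = 1 := by
        by_cases hpQ : p ∈ Q
        · rw [(aQ_prime z Q hp).1 hpQ]; exact hz1 p hpQ hpk
        · rw [(aQ_prime z Q hp).2 hpQ, norm_one]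
      set ω : ℂ := aQ z Q p / χ (p : ZMod k) with hω
      have hωn : ‖ω‖ = 1 := by rw [hω, norm_div, ha1, hχ, div_one]
      obtain ⟨m, hm⟩ := h p hp (by omega)
      rw [← hω] at hm
      set δ : ℝ := t0 * Real.log p - -ω.arg / (2 * Real.pi) - m with hδ
      have hlog : t * Real.log p = -ω.arg + 2 * Real.pi * δ + m * (2 * Real.pi) := by
        rw [hδ, ht]
        field_simp
        ring
      have hp0 : (p : ℂ) ≠ 0 := by exact_mod_cast hp.ne_zero
      have e1 : (p : ℂ) ^ (-(t * I)) = ω * cexp (I * (-(2 * Real.pi * δ) : ℝ)) := by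
        have e2 : ω = cexp (ω.arg * I) := by
          have := Complex.norm_mul_exp_arg_mul_I ω
          rw [hωn, Complex.ofReal_one, one_mul] at this
          exact this.symm
        conv_rhs => rw [e2]
        rw [Complex.cpow_def_of_ne_zero hp0, ← Complex.exp_add, ← Complex.natCast_log]
        have e3 : ((Real.log ((p : ℕ) : ℝ) : ℝ) : ℂ) * -(t * I) =
            (ω.arg * I + I * (-(2 * Real.pi * δ) : ℝ)) + (-m : ℤ) * (2 * Real.pi * I) := by
          have h4 : ((Real.log ((p : ℕ) : ℝ) : ℝ) : ℂ) * -(t * I) =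
              -((t * Real.log ((p : ℕ) : ℝ) : ℝ) : ℂ) * I := by push_cast; ring
          rw [h4, hlog]
          push_cast
          ring
        rw [e3, Complex.exp_add _ (((-m : ℤ) : ℂ) * (2 * Real.pi * I)), Complex.exp_int_mul_two_pi_mul_I, mul_one]
      have e4 : f p - aQ z Q p = aQ z Q p * (cexp (I * (-(2 * Real.pi * δ) : ℝ)) - 1) := by
        rw [hf]
        simp only
        rw [e1, hω]
        field_simp
      rw [e4, norm_mul, ha1, one_mul]
      refine (Real.norm_exp_I_mul_ofReal_sub_one_le).trans ?_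
      rw [Real.norm_eq_abs, abs_neg, abs_mul, abs_of_pos (by positivity : (0:ℝ) < 2 * Real.pi)]
      have := hm.le
      rw [le_div_iff₀ (by positivity)] at this
      linarith
  have hfmul : ∀ m n : ℕ, f (m * n) = f m * f n := by
    intro m n
    rw [hf]
    simp only
    rw [Nat.cast_mul, map_mul, Nat.cast_mul, Complex.natCast_mul_natCast_cpow]
    ring
  intro n
  induction n using Nat.strong_induction_on with
  | _ n ih =>
    intro hn hnN
    change ‖f n - aQ z Q n‖ ≤ (n - 1) * ε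
    rcases Nat.lt_or_ge 1 n with h1 | h1
    · obtain ⟨p, hp, m, rfl⟩ := Nat.exists_prime_and_dvd h1.ne'
      have hm0 : 0 < m := Nat.pos_of_ne_zero (by rintro rfl; simp at hn)
      have hlt : m < p * m := by nlinarith [hp.two_le]
      have hmN : m ≤ N := by omega
      have hpN : p ≤ N := le_trans (Nat.le_mul_of_pos_right p hm0) hnN
      have i1 := ih m hlt hm0 hmN
      have i2 := hprime p hp hpN
      rw [hfmul, aQ_mul z Q hp.ne_zero hm0.ne']
      have e5 : f p * f m - aQ z Q p * aQ z Q m = (f p - aQ z Q p) * f m + aQ z Q p * (f m - aQ z Q m) := by ring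
      rw [e5]
      refine (norm_add_le _ _).trans ?_
      rw [norm_mul (f p - aQ z Q p) (f m), norm_mul (aQ z Q p) (f m - aQ z Q m)]
      have j1 : ‖f p - aQ z Q p‖ * ‖f m‖ ≤ ε * 1 := mul_le_mul i2 (hfn m hm0) (norm_nonneg _) hε.le
      have j2 : ‖aQ z Q p‖ * ‖f m - aQ z Q m‖ ≤ 1 * ((m - 1) * ε) :=
        mul_le_mul (aQ_norm z Q hzle p) i1 (norm_nonneg _) (by norm_num)
      have j3 : (2 : ℝ) * m ≤ (p * m : ℕ) := by
        push_cast
        have : (2 : ℝ) ≤ p := by exact_mod_cast hp.two_le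
        have hmr : (0 : ℝ) < m := by exact_mod_cast hm0
        nlinarith
      have hm1 : (1 : ℝ) ≤ m := by exact_mod_cast hm0
      have : (m : ℝ) * ε ≤ ((p * m : ℕ) - 1) * ε := by
        apply mul_le_mul_of_nonneg_right _ hε.le
        linarith
      linarith
    · have : n = 1 := by omega
      subst this
      rw [hf]
      simp [aQ_one]

lemma partialSum_diff {k : ℕ} (χ : DirichletCharacter ℂ k) (N : ℕ) : Differentiable ℂ (partialSum χ N) := by
  unfold partialSum
  apply Differentiable.fun_sum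
  intro n hn
  rw [Finset.mem_Icc] at hn
  have hn0 : (n : ℂ) ≠ 0 := by exact_mod_cast (by omega : n ≠ 0)
  exact (differentiable_id.neg.const_cpow (Or.inl hn0)).const_mul _

lemma partial_approx {k : ℕ} (χ : DirichletCharacter ℂ k) (a : ℕ → ℂ) {N : ℕ} (hN : 1 ≤ N) {t : ℝ}
    (h : ∀ n : ℕ, 1 ≤ n → n ≤ N → ‖χ (n : ZMod k) * (n : ℂ) ^ (-(t * I)) - a n‖ ≤ (n - 1) * (1 / (N : ℝ) ^ 3))
    {s : ℂ} (hs : 0 ≤ s.re) : ‖partialSum χ N (s + t * I) - PS a N s‖ ≤ 1 / N := by
  have hNr : (1 : ℝ) ≤ N := by exact_mod_cast hN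
  unfold partialSum PS
  rw [Nat.floor_natCast, ← Finset.sum_sub_distrib]
  calc ‖∑ n ∈ Icc 1 N, (χ (n : ZMod k) * (n : ℂ) ^ (-(s + t * I)) - a n * (n : ℂ) ^ (-s))‖ ≤
      ∑ n ∈ Icc 1 N, 1 / (N : ℝ) ^ 2 := by
        refine norm_sum_le_of_le _ fun n hn => ?_
        rw [Finset.mem_Icc] at hn
        have hn0 : (n : ℂ) ≠ 0 := by exact_mod_cast (by omega : n ≠ 0)
        have e1 : χ (n : ZMod k) * (n : ℂ) ^ (-(s + t * I)) - a n * (n : ℂ) ^ (-s) =
            (χ (n : ZMod k) * (n : ℂ) ^ (-(t * I)) - a n) * (n : ℂ) ^ (-s) := by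
          rw [show -(s + t * I) = -(t * I) + -s by ring, Complex.cpow_add _ _ hn0]
          ring
        rw [e1, norm_mul]
        have h1 := h n hn.1 hn.2
        have h2 : ‖(n : ℂ) ^ (-s)‖ ≤ 1 := by
          rw [Complex.norm_natCast_cpow_of_pos (by omega), Complex.neg_re]
          exact Real.rpow_le_one_of_one_le_of_nonpos (by exact_mod_cast hn.1) (by linarith)
        have h3 : ((n : ℝ) - 1) * (1 / (N : ℝ) ^ 3) ≤ 1 / (N : ℝ) ^ 2 := by
          have : (n : ℝ) ≤ N := by exact_mod_cast hn.2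
          calc ((n : ℝ) - 1) * (1 / (N : ℝ) ^ 3) ≤ N * (1 / (N : ℝ) ^ 3) := by gcongr; linarith
            _ = 1 / (N : ℝ) ^ 2 := by field_simp
        have h4 : 0 ≤ ((n : ℝ) - 1) * (1 / (N : ℝ) ^ 3) := (norm_nonneg _).trans h1
        calc ‖χ (n : ZMod k) * (n : ℂ) ^ (-(t * I)) - a n‖ * ‖(n : ℂ) ^ (-s)‖ ≤
            (((n : ℝ) - 1) * (1 / (N : ℝ) ^ 3)) * 1 := mul_le_mul h1 h2 (norm_nonneg _) h4
          _ ≤ _ := by linarith
    _ = 1 / N := by
        rw [Finset.sum_const, Nat.card_Icc, nsmul_eq_mul]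
        simp only [Nat.add_sub_cancel]
        field_simp

/-- the point at which the partial sum of length `N` is evaluated -/
noncomputable def sN (N : ℕ) (w : ℂ) : ℂ :=
  1 + I + (w + ((2 * Real.pi * ⌈Real.log N / (2 * Real.pi)⌉ - Real.log N : ℝ) : ℂ) * I) / Real.log N

lemma phi_bd (N : ℕ) : 0 ≤ 2 * Real.pi * ⌈Real.log N / (2 * Real.pi)⌉ - Real.log N ∧
    2 * Real.pi * ⌈Real.log N / (2 * Real.pi)⌉ - Real.log N ≤ 7 := by
  have hpi := Real.pi_pos
  have h1 := Int.le_ceil (Real.log N / (2 * Real.pi))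
  have h2 := (Int.ceil_lt_add_one (Real.log N / (2 * Real.pi))).le
  have e : 2 * Real.pi * (Real.log N / (2 * Real.pi)) = Real.log N := by field_simp
  constructor
  · have := mul_le_mul_of_nonneg_left h1 (by positivity : 0 ≤ 2 * Real.pi)
    linarith
  · have := mul_le_mul_of_nonneg_left h2 (by positivity : 0 ≤ 2 * Real.pi)
    have h3 := Real.pi_lt_d2
    linarith

lemma sN_pow {N : ℕ} (hN : 1 < N) (w : ℂ) : ((N : ℝ) : ℂ) ^ (1 - sN N w) = cexp (-w) := by
  have hN0 : ((N : ℝ) : ℂ) ≠ 0 := by exact_mod_cast (by omega : N ≠ 0)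
  have hl : 0 < Real.log N := Real.log_pos (by exact_mod_cast hN)
  have hlc : (Real.log N : ℂ) ≠ 0 := by exact_mod_cast hl.ne'
  rw [Complex.cpow_def_of_ne_zero hN0, ← Complex.ofReal_log (by positivity)]
  have e : (Real.log N : ℂ) * (1 - sN N w) = -w + (-⌈Real.log N / (2 * Real.pi)⌉ : ℤ) * (2 * Real.pi * I) := by
    unfold sN
    have : (Real.log N : ℂ) * (1 - (1 + I +
        (w + ((2 * Real.pi * ⌈Real.log N / (2 * Real.pi)⌉ - Real.log N : ℝ) : ℂ) * I) / Real.log N)) =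
        -(Real.log N) * I - (w + ((2 * Real.pi * ⌈Real.log N / (2 * Real.pi)⌉ - Real.log N : ℝ) : ℂ) * I) := by
      field_simp
      ring
    rw [this]
    push_cast
    ring
  rw [e, Complex.exp_add, Complex.exp_int_mul_two_pi_mul_I, mul_one]

lemma sN_re (N : ℕ) (w : ℂ) : (sN N w).re = 1 + w.re / Real.log N := by
  unfold sN
  rw [Complex.add_re, Complex.div_ofReal_re, Complex.add_re w, Complex.re_ofReal_mul, Complex.I_re, mul_zero,
    add_zero, Complex.add_re, Complex.one_re, Complex.I_re, add_zero]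

lemma sN_im (N : ℕ) (w : ℂ) : (sN N w).im =
    1 + (w.im + (2 * Real.pi * ⌈Real.log N / (2 * Real.pi)⌉ - Real.log N)) / Real.log N := by
  unfold sN
  rw [Complex.add_im, Complex.div_ofReal_im, Complex.add_im w, Complex.im_ofReal_mul, Complex.I_im, mul_one,
    Complex.add_im, Complex.one_im, Complex.I_im, zero_add]

lemma sN_dom {N : ℕ} {w : ℂ} {W : ℝ} (hw : ‖w‖ ≤ W) (hw0 : 0 ≤ w.re) (hN : 4 * (W + 7) ≤ Real.log N) :
    Dom (sN N w) := by
  obtain ⟨h1, h2⟩ := phi_bd N
  have hW : 0 ≤ W := (norm_nonneg _).trans hw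
  have hl : 0 < Real.log N := by linarith
  have h3 := Complex.abs_im_le_norm w
  have h4 := Complex.re_le_norm w
  have h5 := abs_le.1 (h3.trans hw)
  refine ⟨?_, ?_, ?_, ?_⟩
  · rw [sN_re]
    have : 0 ≤ w.re / Real.log N := by positivity
    linarith
  · rw [sN_re]
    have : w.re / Real.log N ≤ 1 / 4 := by
      rw [div_le_iff₀ hl]; linarith
    linarith
  · rw [sN_im]
    have : -(1 / 2) ≤ (w.im + (2 * Real.pi * ⌈Real.log N / (2 * Real.pi)⌉ - Real.log N)) / Real.log N := by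
      rw [le_div_iff₀ hl]; linarith [h5.1]
    linarith
  · rw [sN_im]
    have : (w.im + (2 * Real.pi * ⌈Real.log N / (2 * Real.pi)⌉ - Real.log N)) / Real.log N ≤ 1 := by
      rw [div_le_iff₀ hl]; linarith [h5.2]
    linarith

lemma sN_tendsto (w : ℂ) : Tendsto (fun N : ℕ => sN N w) atTop (𝓝 (1 + I)) := by
  have hl : Tendsto (fun N : ℕ => Real.log N) atTop atTop :=
    Real.tendsto_log_atTop.comp tendsto_natCast_atTop_atTop
  have h : Tendsto (fun N : ℕ => (w + ((2 * Real.pi * ⌈Real.log N / (2 * Real.pi)⌉ - Real.log N : ℝ) : ℂ) * I) /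
      Real.log N) atTop (𝓝 0) := by
    have h1 : Tendsto (fun N : ℕ => (‖w‖ + 7) / Real.log N) atTop (𝓝 0) := hl.const_div_atTop _
    refine squeeze_zero_norm' ?_ h1
    filter_upwards [hl.eventually_gt_atTop 0] with N hN
    obtain ⟨g1, g2⟩ := phi_bd N
    rw [norm_div, Complex.norm_real, Real.norm_of_nonneg hN.le]
    gcongr
    refine (norm_add_le _ _).trans ?_
    rw [norm_mul, Complex.norm_I, mul_one, Complex.norm_real, Real.norm_of_nonneg g1]
    linarith
  have := h.const_add (1 + I)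
  rw [add_zero] at this
  exact this

/-- **Partial sums of Dirichlet `L`-functions have zeros to the right of `1 + C / log N`.** -/
theorem main {k : ℕ} [NeZero k] (χ : DirichletCharacter ℂ k) (C : ℝ) :
    ∀ᶠ N : ℕ in atTop, ∀ T : ℝ, ∃ s : ℂ, 1 + C / Real.log N < s.re ∧ T < s.im ∧ partialSum χ N s = 0 := by
  by_contra hcon
  rw [Filter.not_eventually] at hcon
  -- the modified Euler product
  set C' : ℝ := max C 0 with hC'
  obtain ⟨Q, z, hQ, hk, hz0, hz1, hrat⟩ := ratio k (NeZero.ne k) (Real.exp (C' + 2) * ‖riemannZeta (1 + I)‖)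
  have hzle : ∀ p ∈ Q, ‖z p‖ ≤ 1 := by
    intro p hp
    by_cases h : p ∣ k
    · rw [hz0 p hp h]; simp
    · exact (hz1 p hp h).le
  obtain ⟨K, M, hK, hasy⟩ := asy z Q hQ hzle
  set α : ℂ → ℂ := fun s => riemannZeta s * ∏ p ∈ Q, (1 - (p : ℂ) ^ (-s)) / (1 - z p * (p : ℂ) ^ (-s)) with hα
  set β : ℂ := ∏ p ∈ Q, (1 - (p : ℂ)⁻¹) / (1 - z p * (p : ℂ)⁻¹) with hβ
  set A : ℂ := α (1 + I) with hA
  have hrat' : Real.exp (C' + 2) * ‖A‖ < ‖β‖ := by
    rw [hA, hα, hβ]
    simp only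
    rw [norm_mul, norm_prod, norm_prod, ← mul_assoc]
    exact hrat
  have hre1 : 1 ≤ (1 + I : ℂ).re := by simp
  have hA0 : A ≠ 0 := by
    rw [hA, hα]
    simp only
    refine mul_ne_zero (riemannZeta_ne_zero_of_one_le_re hre1) (Finset.prod_ne_zero_iff.2 fun p hp => ?_)
    refine div_ne_zero ?_ (fac (hQ p hp).two_le (hzle p hp) hre1).1
    have := (fac (hQ p hp).two_le (z := 1) (by simp) hre1).1
    rwa [one_mul] at this
  have hAn : 0 < ‖A‖ := norm_pos_iff.2 hA0
  have hβn : 0 < ‖β‖ := lt_of_le_of_lt (by positivity) hrat'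
  have hβ0 : β ≠ 0 := norm_pos_iff.1 hβn
  -- the zero of the limit function
  set w0 : ℂ := Complex.log (β / (A * I)) with hw0
  have hexp : cexp w0 = β / (A * I) := Complex.exp_log (div_ne_zero hβ0 (mul_ne_zero hA0 I_ne_zero))
  have hre : C' + 2 < w0.re := by
    rw [hw0, Complex.log_re, norm_div, norm_mul, Complex.norm_I, mul_one, Real.lt_log_iff_exp_lt (by positivity),
      lt_div_iff₀ hAn]
    exact hrat'
  set W : ℝ := ‖w0‖ + 1 with hW
  have hC0 : 0 ≤ C' := le_max_right _ _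
  have hCC : C ≤ C' := le_max_left _ _
  have hV : ∀ w ∈ Metric.ball w0 1, C' + 1 < w.re ∧ ‖w‖ ≤ W := by
    intro w hw
    rw [Metric.mem_ball, dist_eq_norm] at hw
    constructor
    · have h1 := Complex.abs_re_le_norm (w - w0)
      rw [Complex.sub_re] at h1
      have h2 := (abs_le.1 (h1.trans hw.le)).1
      linarith
    · have h1 := norm_add_le (w - w0) w0
      rw [sub_add_cancel] at h1
      linarith
  -- the sequence of bad lengths
  have hl : Tendsto (fun N : ℕ => Real.log N) atTop atTop :=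
    Real.tendsto_log_atTop.comp tendsto_natCast_atTop_atTop
  have hfreq := hcon.and_eventually ((hl.eventually_ge_atTop (4 * (W + 7))).and (eventually_gt_atTop 1))
  obtain ⟨φ, hφ, hbad⟩ := Filter.extraction_of_frequently_atTop hfreq
  have hφt : Tendsto φ atTop atTop := hφ.tendsto_atTop
  have hT : ∀ j, ∃ T : ℝ, ∀ s : ℂ, 1 + C / Real.log (φ j) < s.re → T < s.im → partialSum χ (φ j) s ≠ 0 := by
    intro j
    have := (hbad j).1
    push Not at this
    exact this
  choose T hT using hT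
  have hN1 : ∀ j, 1 < φ j := fun j => (hbad j).2.2
  have hNr : ∀ j, (1 : ℝ) < φ j := fun j => by exact_mod_cast hN1 j
  have hlog : ∀ j, 4 * (W + 7) ≤ Real.log (φ j) := fun j => (hbad j).2.1
  have happ : ∀ j, ∃ t > T j, ∀ n : ℕ, 1 ≤ n → n ≤ φ j →
      ‖χ (n : ZMod k) * (n : ℂ) ^ (-(t * I)) - aQ z Q n‖ ≤ (n - 1) * (1 / (φ j : ℝ) ^ 3) :=
    fun j => approx χ z Q hk hz0 hz1 (φ j) _ (by have := hNr j; positivity) (T j)
  choose t ht happ using happ
  have hdom : ∀ j, ∀ w ∈ Metric.ball w0 1, Dom (sN (φ j) w) := fun j w hw =>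
    sN_dom (hV w hw).2 (by linarith [(hV w hw).1]) (hlog j)
  set F : ℕ → ℂ → ℂ := fun j w => partialSum χ (φ j) (sN (φ j) w + t j * I) with hF
  have hmain : ∀ j, ∀ w ∈ Metric.ball w0 1,
      ‖F j w - (α (sN (φ j) w) - β * (cexp (-w) / (sN (φ j) w - 1)))‖ ≤
        1 / (φ j : ℝ) + K * (φ j : ℝ) ^ (-(1 / 2) : ℝ) := by
    intro j w hw
    have hd := hdom j w hw
    have h1 := partial_approx χ (aQ z Q) (hN1 j).le (happ j) (s := sN (φ j) w) (by linarith [hd.re1])
    have h2 := (hasy _ hd).2.2 (φ j : ℝ) (by linarith [hNr j])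
    unfold MT at h2
    rw [sN_pow (hN1 j)] at h2
    have h3 := norm_add_le (partialSum χ (φ j) (sN (φ j) w + t j * I) - PS (aQ z Q) (φ j : ℝ) (sN (φ j) w))
      (PS (aQ z Q) (φ j : ℝ) (sN (φ j) w) - (α (sN (φ j) w) - β * (cexp (-w) / (sN (φ j) w - 1))))
    rw [sub_add_sub_cancel] at h3
    refine h3.trans ?_
    exact add_le_add h1 h2
  have hFd : ∀ j, DifferentiableOn ℂ (F j) (Metric.ball w0 1) := by
    intro j
    apply Differentiable.differentiableOn
    have hin : Differentiable ℂ fun w : ℂ => sN (φ j) w + t j * I := by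
      unfold sN
      fun_prop
    exact (partialSum_diff χ (φ j)).comp hin
  have hFb : ∀ j, ∀ w ∈ Metric.ball w0 1, ‖F j w‖ ≤ 1 + K + 3 * M := by
    intro j w hw
    have hd := hdom j w hw
    have h1 := hmain j w hw
    obtain ⟨a1, a2, _⟩ := hasy _ hd
    have hM : 0 ≤ M := (norm_nonneg _).trans a2
    have h2 : 1 / (φ j : ℝ) ≤ 1 := by
      rw [div_le_one (by linarith [hNr j])]
      exact (hNr j).le
    have h3 : K * (φ j : ℝ) ^ (-(1 / 2) : ℝ) ≤ K * 1 := by
      apply mul_le_mul_of_nonneg_left _ hK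
      exact Real.rpow_le_one_of_one_le_of_nonpos (hNr j).le (by norm_num)
    have h4 : ‖cexp (-w) / (sN (φ j) w - 1)‖ ≤ 2 := by
      rw [← sN_pow (hN1 j)]
      refine (cpow_div_le hd (by linarith [hNr j])).trans ?_
      have : (φ j : ℝ) ^ (1 - (sN (φ j) w).re) ≤ 1 :=
        Real.rpow_le_one_of_one_le_of_nonpos (hNr j).le (by linarith [hd.re1])
      linarith
    have h5 : ‖β * (cexp (-w) / (sN (φ j) w - 1))‖ ≤ M * 2 := by
      rw [norm_mul]
      exact mul_le_mul a2 h4 (norm_nonneg _) hM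
    have h6 := norm_sub_le (α (sN (φ j) w)) (β * (cexp (-w) / (sN (φ j) w - 1)))
    have h7 := norm_add_le (F j w - (α (sN (φ j) w) - β * (cexp (-w) / (sN (φ j) w - 1))))
      (α (sN (φ j) w) - β * (cexp (-w) / (sN (φ j) w - 1)))
    rw [sub_add_cancel] at h7
    have a1' : ‖α (sN (φ j) w)‖ ≤ M := a1
    linarith
  have hαc : ContinuousAt α (1 + I) := by
    have hne : (1 + I : ℂ) ≠ 1 := by
      intro h
      have := congrArg Complex.im h
      simp at this
    rw [hα]
    apply ContinuousAt.mul (differentiableAt_riemannZeta hne).continuousAt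
    refine tendsto_finsetProd _ fun p hp => ?_
    have hp0 : (p : ℂ) ≠ 0 := by exact_mod_cast (hQ p hp).ne_zero
    have hc : ContinuousAt (fun s : ℂ => (p : ℂ) ^ (-s)) (1 + I) :=
      (continuous_neg.const_cpow (Or.inl hp0)).continuousAt
    exact (ContinuousAt.div (continuousAt_const.sub hc) (continuousAt_const.sub (continuousAt_const.mul hc))
      (fac (hQ p hp).two_le (hzle p hp) hre1).1).tendsto
  have hlim : ∀ w ∈ Metric.ball w0 1, Tendsto (fun j => F j w) atTop (𝓝 (A - β * (cexp (-w) / I))) := by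
    intro w hw
    have hs : Tendsto (fun j => sN (φ j) w) atTop (𝓝 (1 + I)) := (sN_tendsto w).comp hφt
    have h1 : Tendsto (fun j => α (sN (φ j) w) - β * (cexp (-w) / (sN (φ j) w - 1))) atTop
        (𝓝 (A - β * (cexp (-w) / I))) := by
      apply Tendsto.sub (hαc.tendsto.comp hs)
      apply Tendsto.const_mul
      apply Tendsto.div tendsto_const_nhds _ I_ne_zero
      have := hs.sub_const 1
      rwa [add_sub_cancel_left] at this
    have hφr : Tendsto (fun j => (φ j : ℝ)) atTop atTop := tendsto_natCast_atTop_atTop.comp hφt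
    have h2 : Tendsto (fun j => 1 / (φ j : ℝ) + K * (φ j : ℝ) ^ (-(1 / 2) : ℝ)) atTop (𝓝 0) := by
      have g1 : Tendsto (fun j => 1 / (φ j : ℝ)) atTop (𝓝 0) := hφr.const_div_atTop _
      have g2 : Tendsto (fun j => K * (φ j : ℝ) ^ (-(1 / 2) : ℝ)) atTop (𝓝 (K * 0)) :=
        ((tendsto_rpow_neg_atTop (by norm_num : (0 : ℝ) < 1 / 2)).comp hφr).const_mul K
      have := g1.add g2
      rwa [mul_zero, add_zero] at this
    have h3 := squeeze_zero_norm (fun j => hmain j w hw) h2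
    have h4 := h3.add h1
    rw [zero_add] at h4
    refine h4.congr fun j => ?_
    ring
  have htlu := Pool.Agent.Helper671.UP.tlu_of_pointwise (l := atTop) Metric.isOpen_ball hFd hFb hlim
  have hne : ∀ j, ∀ w ∈ Metric.ball w0 1, F j w ≠ 0 := by
    intro j w hw
    have hd := hdom j w hw
    have hlp : 0 < Real.log (φ j) := Real.log_pos (hNr j)
    apply hT j
    · rw [Complex.add_re, sN_re]
      have e : ((t j : ℂ) * I).re = 0 := by simp
      rw [e, add_zero]
      have := (hV w hw).1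
      gcongr
      linarith
    · rw [Complex.add_im]
      have e : ((t j : ℂ) * I).im = t j := by simp
      rw [e]
      have := hd.im1
      have := ht j
      linarith
  have hzero : A - β * (cexp (-w0) / I) = 0 := by
    rw [Complex.exp_neg, hexp]
    have hI := I_ne_zero
    field_simp
    ring
  have hev := Pool.Agent.Helper671.UP.hurwitz (l := atTop) Metric.isOpen_ball hFd htlu hne
    (Metric.mem_ball_self one_pos) hzero
  have d1 : HasDerivAt (fun w : ℂ => A - β * (cexp (-w) / I)) (β * (cexp (-w0) / I)) w0 := by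
    have h1 : HasDerivAt (fun w : ℂ => cexp (-w)) (-cexp (-w0)) w0 := by
      have := (hasDerivAt_neg w0).cexp
      simpa using this
    have h2 := ((h1.div_const I).const_mul β).const_sub A
    have e : β * (cexp (-w0) / I) = -(β * (-cexp (-w0) / I)) := by
      rw [neg_div, mul_neg, neg_neg]
    rw [e]
    exact h2
  have d2 : HasDerivAt (fun w : ℂ => A - β * (cexp (-w) / I)) 0 w0 :=
    (hasDerivAt_const w0 (0 : ℂ)).congr_of_eventuallyEq hev
  have := d1.unique d2
  exact mul_ne_zero hβ0 (div_ne_zero (Complex.exp_ne_zero _) I_ne_zero) this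

end Pool.Agent.X108.TU
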